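import Pool.Agent.Helper15.GD.Base
import Pool.Agent.Helper40.CX.BC.Final

/-!
# Coniveau on the powers of a variety: the axioms

`H(K)` is the transcendental part of the second cohomology of a variety `X` over `Ω` with function
field `K`, the orthogonal complement of the classes of curves in `H²(X)`. It depends only on `K` and
is functorial for correspondences. Its `n`-th tensor power is contained in `H^{2n}(X ^ n)`, and
`sup K n ν` is the subspace of the classes which are supported on closed subsets of `X ^ n` of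
codimension `ν`.
-/

set_option autoImplicit false

namespace Pool.Agent.Helper35.EP

open IntermediateField TensorProduct CategoryTheory Pool.Agent.Helper15.GD
open CX CX.VC CX.BC CX.Pool.Agent.Helper21.TO
open CX.Pool.Agent.Helper51.EW (Wei)

section

variable {L : Type} [Field L]

/-- the `n`-th tensor power -/
noncomputable def tpow (V : ModuleCat.{0} L) (n : ℕ) : ModuleCat.{0} L :=
  ModuleCat.of L (⨂[L] _ : Fin n, V)

/-- the product of `n` elements, in the `n`-th tensor power -/
noncomputable def tens {V : ModuleCat.{0} L} {n : ℕ} (z : Fin n → V) : tpow V n :=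
  PiTensorProduct.tprod L z

/-- the product of `n` homomorphisms -/
noncomputable def tmap {V V' : ModuleCat.{0} L} {n : ℕ} (ψ : Fin n → (V ⟶ V')) :
    tpow V n ⟶ tpow V' n :=
  ModuleCat.ofHom (PiTensorProduct.map fun i => (ψ i).hom)

/-- the product of two tensors, that is, the multiplication of the tensor algebra -/
noncomputable def tmul {V : ModuleCat.{0} L} {a b : ℕ} (s : tpow V a) (t : tpow V b) :
    tpow V (a + b) :=
  @GradedMonoid.GMul.mul ℕ (fun i => ⨂[L]^i V) _ _ a b s t

/-- permutation of the factors -/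
noncomputable def tperm {V : ModuleCat.{0} L} {n : ℕ} (σ : Equiv.Perm (Fin n)) (t : tpow V n) :
    tpow V n :=
  PiTensorProduct.reindex L (fun _ => V) σ t

/-- the alternating sum of the products of the `z i` in all orders -/
noncomputable def alt {V : ModuleCat.{0} L} {n : ℕ} (z : Fin n → V) : tpow V n :=
  ∑ σ : Equiv.Perm (Fin n), ((Equiv.Perm.sign σ : ℤ) : L) • tens (z ∘ σ)

/-- `a` is an eigenvalue of `φ`, with an eigenvector in `P`. -/
def IsEigenvalue {V : ModuleCat.{0} L} (φ : V ⟶ V) (P : Submodule L V) (a : L) : Prop :=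
  ∃ x ∈ P, x ≠ 0 ∧ φ.hom x = a • x

/-- `x` is a generalised eigenvector of `φ`. -/
def IsGen {V : ModuleCat.{0} L} (φ : V ⟶ V) (a : L) (x : V) : Prop :=
  x ∈ Module.End.maxGenEigenspace φ.hom a

/-- `P` is stable under `φ` -/
def IsStable {V : ModuleCat.{0} L} (φ : V ⟶ V) (P : Submodule L V) : Prop :=
  ∀ x ∈ P, φ.hom x ∈ P

/-- Let `D i` be a set of at most `s i` eigenvalues of `φ` on `A i`, and let the product of two
different elements of the union be different from `q ^ 2`. Then there is a valuation ring `R` such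
that the elements of all `D i` are units of `R` and `q` is not. If `D i` has `s i` elements for all
`i`, the other eigenvalues on `A i` are of the form `q ^ 2 / a` with `a ∈ D i`, or `q` times a unit
of `R`. -/
def IsOrdinary {V : ModuleCat.{0} L} (φ : V ⟶ V) (q : L) {r : ℕ} (s : Fin r → ℕ)
    (A : Fin r → Submodule L V) : Prop :=
  ∀ D : Fin r → Finset L, (∀ i, ∀ a ∈ D i, IsEigenvalue φ (A i) a) → (∀ i, (D i).card ≤ s i) →
    (∀ i j, ∀ a ∈ D i, ∀ b ∈ D j, a ≠ b → a * b ≠ q ^ 2) →
      ∃ R : ValuationSubring L, q ≠ 0 ∧ q ∈ R ∧ q⁻¹ ∉ R ∧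
        (∀ i, ∀ a ∈ D i, a ≠ 0 ∧ a ∈ R ∧ a⁻¹ ∈ R) ∧
          ((∀ i, (D i).card = s i) → ∀ i b, IsEigenvalue φ (A i) b →
            b ∈ D i ∨ (∃ a ∈ D i, b * a = q ^ 2) ∨ b / q ∈ R ∧ q / b ∈ R)

end

/-- The vector spaces `H(K)`, the homomorphisms `H(K) → H(K')` given by correspondences, and the
classes in the tensor powers of `H(K)` which are supported in codimension `ν`. -/
structure PowCoh (Ω L : Type) [Field Ω] [Field L] where
  H : Ext Ω → ModuleCat.{0} L
  corr : ∀ K K' : Ext Ω, Set (H K ⟶ H K')
  sup : ∀ (K : Ext Ω) (n _ν : ℕ), Submodule L (tpow (H K) n)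

variable {Ω L : Type} [Field Ω] [Field L]

/-- The identity is given by a correspondence. -/
def PowCoh.Identity (T : PowCoh Ω L) : Prop :=
  ∀ K : Ext Ω, 𝟙 (T.H K) ∈ T.corr K K

/-- Products of correspondences preserve the coniveau. -/
def PowCoh.Stable (T : PowCoh Ω L) : Prop :=
  ∀ (K K' : Ext Ω) (n ν : ℕ) (ψ : Fin n → (T.H K ⟶ T.H K')), (∀ i, ψ i ∈ T.corr K K') →
    ∀ t ∈ T.sup K n ν, (tmap ψ).hom t ∈ T.sup K' n ν

/-- codimension zero, exterior products, permutations of the factors -/
structure PowCoh.Products (T : PowCoh Ω L) : Prop where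
  zero : ∀ (K : Ext Ω) (n : ℕ) (t : tpow (T.H K) n), t ∈ T.sup K n 0
  mul : ∀ (K : Ext Ω) (a b μ ν : ℕ), ∀ s ∈ T.sup K a μ, ∀ t ∈ T.sup K b ν,
    tmul s t ∈ T.sup K (a + b) (μ + ν)
  perm : ∀ (K : Ext Ω) (n ν : ℕ) (σ : Equiv.Perm (Fin n)), ∀ t ∈ T.sup K n ν,
    tperm σ t ∈ T.sup K n ν

/-- For each algebraically closed extension `Ω'` of `Ω` and each projective variety over `Ω'` whose
generic point has its homogeneous coordinates `ξ` in the field `F` obtained from `K` by the extension
of the constants from `Ω` to `Ω'`: for all zero-cycles `a 0`, …, `a (n - 1)` of degree zero a positive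
multiple of the alternating sum of their products in all orders is rationally equivalent to zero. -/
def HasVoisin (n : ℕ) (Ω K : Type) [Field Ω] [Field K] [Algebra Ω K] : Prop :=
  ∀ (Ω' : Type) [Field Ω'] [Algebra Ω Ω'] [IsAlgClosed Ω'] [Good Ω'],
    ∃ (F : Type) (_ : Field F) (_ : Algebra Ω' F) (i : K →+* F), IsConst Ω Ω' K F i ∧
      ∀ (N : ℕ) (ξ : Fin N → F), ξ ≠ 0 → Voisin (proj Ω' (van Ω' ξ)) n

/-- Bloch and Srinivas: if the conjecture of Voisin is true for `n` zero-cycles, then the alternating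
sums of `n` elements are supported on divisors. -/
def PowCoh.BlochSrinivas (T : PowCoh Ω L) : Prop :=
  ∀ (n : ℕ) (K : Ext Ω), HasVoisin n Ω K → ∀ z : Fin n → T.H K, alt z ∈ T.sup K n 1

/-- The axioms. -/
structure PowCoh.IsTheory (T : PowCoh Ω L) : Prop where
  identity : T.Identity
  stable : T.Stable
  products : T.Products
  blochSrinivas : T.BlochSrinivas

/-- `K` is contained in the function field of a surface with a genus one fibration over the
projective line and the Euler characteristic `s + 1`: the minimal Weierstrass equation of the Jacobian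
fibration has coefficients `A` and `B` of degrees `4 (s + 1)` and `6 (s + 1)`. -/
def IsGenusOne (s : ℕ) (Ω K : Type) [Field Ω] [Field K] [Algebra Ω K] : Prop :=
  ∃ (W : Wei Ω) (L E : Type) (_ : Field L) (_ : Algebra Ω L) (_ : Field E) (_ : Algebra Ω E)
    (_ : Algebra L E) (_ : IsScalarTower Ω L E) (T : Torsor W L E) (f : K →ₐ[Ω] E),
    W.N = s + 1 ∧ 4 * W.A ^ 3 + 27 * W.B ^ 2 ≠ 0 ∧ Minimal W ∧ ∀ z, ∀ σ ∈ T.G, σ (f z) = f z

/-- `A` is the image of `H(K)` under a correspondence, where `K` is contained in the function field of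
a surface with a genus one fibration. -/
def PowCoh.IsPart (T : PowCoh Ω L) (K0 : Ext Ω) (s : ℕ) (A : Submodule L (T.H K0)) : Prop :=
  ∃ K : Ext Ω, IsGenusOne s Ω K ∧ ∃ ψ ∈ T.corr K K0, A = LinearMap.range ψ.hom

/-- The products of generalised eigenvectors of `φ` for `a` and `q ^ 2 / a` are supported in
codimension two (and one). If `φ` is Frobenius, these are Tate classes. -/
def PowCoh.IsTate (T : PowCoh Ω L) {K : Ext Ω} (φ : T.H K ⟶ T.H K) (q : L) : Prop :=
  ∀ (a b : L) (x y : T.H K), a * b = q ^ 2 → IsGen φ a x → IsGen φ b y →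
    ∀ ν ≤ 2, tens ![x, y] ∈ T.sup K 2 ν

end Pool.Agent.Helper35.EP
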