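import Pool.Agent.Helper35.EP.Span
import Pool.Agent.Helper98.EP2.Blk

/-! Project elliptic powers. Disjoint groups of factors. -/

set_option autoImplicit false

namespace Pool.Agent.Helper35.EP

open TensorProduct Pool.Agent.Helper35.KS Pool.Agent.Helper35.KN Pool.Agent.Helper98.EP2

variable {L V : Type*} [Field L] [AddCommGroup V] [Module L V]

/-- A group of factors in front. -/
theorem front {S : ∀ n : ℕ, ℕ → Submodule L (⨂[L] _ : Fin n, V)} (hS : Closed S)
    {b m μ ν : ℕ} (w : Fin (b + m) → V)
    (h1 : PiTensorProduct.tprod L (fun i => w (Fin.castAdd m i)) ∈ S b μ)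
    (h2 : PiTensorProduct.tprod L (fun i => w (Fin.natAdd b i)) ∈ S m ν) :
    PiTensorProduct.tprod L w ∈ S (b + m) (μ + ν) := by
  have h3 := hS.mul b m μ ν _ _ h1 h2
  rwa [mulT_tprod, append_eq] at h3

/-- **Disjoint groups of factors.** -/
theorem tprod_mem_groups {S : ∀ n : ℕ, ℕ → Submodule L (⨂[L] _ : Fin n, V)} (hS : Closed S)
    (ν : ℕ) : ∀ (n : ℕ) (z : Fin n → V) (B : Fin ν → Finset (Fin n)),
      (∀ k l, k ≠ l → Disjoint (B k) (B l)) →
      (∀ k, ∀ (b : ℕ) (e : Fin b → Fin n), b = (B k).card → Function.Injective e →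
        (∀ x, e x ∈ B k) → PiTensorProduct.tprod L (z ∘ e) ∈ S b 1) →
      PiTensorProduct.tprod L z ∈ S n ν := by
  induction ν with
  | zero => intro n z B _ _; exact hS.zero n _
  | succ ν ih =>
    intro n z B hB hgr
    obtain ⟨b, hb⟩ : ∃ b, b = (B (Fin.last ν)).card := ⟨_, rfl⟩
    have hle : b ≤ n := by
      have h1 := Finset.card_le_univ (B (Fin.last ν))
      rwa [Fintype.card_fin, ← hb] at h1
    obtain ⟨m, rfl⟩ := Nat.exists_eq_add_of_le hle
    let e : Fin b → Fin (b + m) := (B (Fin.last ν)).orderEmbOfFin hb.symm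
    have he : Function.Injective e := ((B (Fin.last ν)).orderEmbOfFin hb.symm).injective
    have heB : ∀ x, e x ∈ B (Fin.last ν) := fun x =>
      Finset.orderEmbOfFin_mem (B (Fin.last ν)) hb.symm x
    obtain ⟨σ, hσ⟩ := exists_perm (Fin.castAdd m : Fin b → Fin (b + m)) e
      (Fin.castAdd_injective b m) he
    refine hS.perm_iff σ z ?_
    rw [add_comm ν 1]
    refine front hS _ ?_ ?_
    · have h1 := hgr (Fin.last ν) b e hb he heB
      have h2 : (fun i => (z ∘ σ) (Fin.castAdd m i)) = z ∘ e := by
        funext i
        show z (σ (Fin.castAdd m i)) = z (e i)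
        rw [hσ]
      rw [h2]
      exact h1
    · -- the other groups do not meet the first `b` factors
      have hnot : ∀ (k : Fin ν) (j : Fin (b + m)), j ∈ B k.castSucc →
          ∃ x : Fin m, σ (Fin.natAdd b x) = j := by
        intro k j hj
        obtain ⟨t, rfl⟩ := σ.surjective j
        induction t using Fin.addCases with
        | left i =>
          exfalso
          rw [hσ] at hj
          have h1 := hB k.castSucc (Fin.last ν) (Fin.castSucc_lt_last k).ne
          exact (Finset.disjoint_left.1 h1 hj) (heB i)
        | right x => exact ⟨x, rfl⟩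
      refine ih m _ (fun k => Finset.univ.filter fun x : Fin m =>
        σ (Fin.natAdd b x) ∈ B k.castSucc) (fun k l hkl => ?_) fun k b' e' hb' he' heB' => ?_
      · rw [Finset.disjoint_left]
        intro x hx hx'
        rw [Finset.mem_filter] at hx hx'
        have h1 := hB k.castSucc l.castSucc fun h => hkl (Fin.castSucc_injective ν h)
        exact Finset.disjoint_left.1 h1 hx.2 hx'.2
      · refine hgr k.castSucc b' (fun x => σ (Fin.natAdd b (e' x))) ?_ ?_ ?_
        · rw [hb']
          have hinj : Function.Injective fun x : Fin m => σ (Fin.natAdd b x) :=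
            σ.injective.comp (Fin.natAdd_injective m b)
          rw [← Finset.card_image_of_injective _ hinj]
          congr 1
          ext j
          rw [Finset.mem_image]
          constructor
          · rintro ⟨x, hx, rfl⟩
            exact (Finset.mem_filter.1 hx).2
          · intro hj
            obtain ⟨x, rfl⟩ := hnot k j hj
            exact ⟨x, Finset.mem_filter.2 ⟨Finset.mem_univ _, hj⟩, rfl⟩
        · exact (σ.injective.comp (Fin.natAdd_injective m b)).comp he'
        · intro x
          exact (Finset.mem_filter.1 (heB' x)).2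

end Pool.Agent.Helper35.EP
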