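import Pool.Agent.Helper98.EP2.OrdS

/-! Project elliptic powers: several parts (by helper98). -/

set_option autoImplicit false

namespace Pool.Agent.Helper35.EP

open TensorProduct Pool.Agent.Helper35.KS Pool.Agent.Helper35.KN Pool.Agent.Helper98.EP2

variable {L V : Type*} [Field L] [AddCommGroup V] [Module L V]

/-- `E i` are the eigenvalues of the piece `i`. Any finite sets `D i` of at most `s i` eigenvalues of
the piece `i`, with no two different elements of the union which have the product `q ^ 2`, consist of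
units of a valuation ring in which `q` is not a unit; if all `D i` have `s i` elements then `b / q` is
a unit for the other eigenvalues `b` of the piece `i`, except for the `q ^ 2 / a`, `a` in `D i`. -/
def OrdP {r : ℕ} (s : Fin r → ℕ) (E : Fin r → L → Prop) (q : L) : Prop :=
  ∀ D : Fin r → Finset L, (∀ i, ∀ a ∈ D i, E i a) → (∀ i, (D i).card ≤ s i) →
    (∀ i j, ∀ a ∈ D i, ∀ b ∈ D j, a ≠ b → a * b ≠ q ^ 2) →
      ∃ R : ValuationSubring L, q ≠ 0 ∧ q ∈ R ∧ q⁻¹ ∉ R ∧
        (∀ i, ∀ a ∈ D i, a ≠ 0 ∧ a ∈ R ∧ a⁻¹ ∈ R) ∧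
          ((∀ i, (D i).card = s i) → ∀ i b, E i b →
            b ∈ D i ∨ (∃ a ∈ D i, b * a = q ^ 2) ∨ b / q ∈ R ∧ q / b ∈ R)

theorem tprod_mem_ordp {S : ∀ n : ℕ, ℕ → Submodule L (⨂[L] _ : Fin n, V)} (hS : Closed S)
    (F : Module.End L V) (q : L) {r : ℕ} (s : Fin r → ℕ)
    (E : Fin r → L → Prop) (hq : OrdP s E q)
    (hT : ∀ (a b : L) (x y : V), a * b = q ^ 2 → x ∈ F.maxGenEigenspace a →
      y ∈ F.maxGenEigenspace b → PiTensorProduct.tprod L ![x, y] ∈ S 2 1) {n w : ℕ} (hw : 0 < w)
    (p : Fin n → Fin r) (a : Fin n → L) (z : Fin n → V)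
    (hz : ∀ j, z j ∈ F.maxGenEigenspace (a j)) (hE : ∀ j, E (p j) (a j))
    (hgroup : ∀ J : Finset (Fin n), (∃ i, (∀ j ∈ J, p j = i) ∧ s i < J.card) → Set.InjOn a J →
      PiTensorProduct.tprod L z ∈ S n 1)
    (hint : IsIntegral ℤ ((∏ j, a j) / q ^ w)) : PiTensorProduct.tprod L z ∈ S n 1 := by
  classical
  let D : Fin r → Finset L := fun i => (Finset.univ.filter fun j => p j = i).image a
  have hD : ∀ i, ∀ b ∈ D i, ∃ j, p j = i ∧ a j = b := fun i b hb => by
    obtain ⟨j, hj, hjb⟩ := Finset.mem_image.1 hb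
    exact ⟨j, (Finset.mem_filter.1 hj).2, hjb⟩
  have hDmem : ∀ j, a j ∈ D (p j) := fun j =>
    Finset.mem_image_of_mem a (Finset.mem_filter.2 ⟨Finset.mem_univ j, rfl⟩)
  by_cases hbig : ∃ i, s i < (D i).card
  · obtain ⟨i, hi⟩ := hbig
    have h1 : ∀ b : D i, ∃ j, p j = i ∧ a j = b := fun b => hD i b b.2
    choose f hf1 hf2 using h1
    have hinj : Function.Injective f := by
      intro b b' hbb
      apply Subtype.ext
      rw [← hf2 b, ← hf2 b', hbb]
    refine hgroup (Finset.univ.image f) ⟨i, ?_, ?_⟩ ?_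
    · intro j hj
      obtain ⟨b, -, rfl⟩ := Finset.mem_image.1 hj
      exact hf1 b
    · rw [Finset.card_image_of_injective _ hinj, Finset.card_univ, Fintype.card_coe]
      exact hi
    · intro j hj j' hj' hjj
      obtain ⟨b, -, rfl⟩ := Finset.mem_image.1 (Finset.mem_coe.1 hj)
      obtain ⟨b', -, rfl⟩ := Finset.mem_image.1 (Finset.mem_coe.1 hj')
      rw [hf2, hf2] at hjj
      rw [Subtype.ext hjj]
  · simp only [not_exists, not_lt] at hbig
    by_cases hdual : ∃ i j, a i ≠ a j ∧ a i * a j = q ^ 2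
    · obtain ⟨i, j, hij, hj⟩ := hdual
      have hji : i ≠ j := fun h => hij (h ▸ rfl)
      have hn2 : 2 ≤ n := by
        have := i.2; have := j.2
        by_contra h
        have h1 : (i : ℕ) = j := by omega
        exact hji (Fin.ext h1)
      obtain ⟨n', rfl⟩ := Nat.exists_eq_add_of_le hn2
      obtain ⟨σ, hσ0, hσ1⟩ := exists_front i j hji
      have hpair : PiTensorProduct.tprod L ![(z ∘ σ) (Fin.castAdd n' 0),
          (z ∘ σ) (Fin.castAdd n' 1)] ∈ S 2 1 := by
        refine hT (a i) (a j) _ _ hj ?_ ?_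
        · show z (σ (Fin.castAdd n' 0)) ∈ _
          rw [hσ0]
          exact hz i
        · show z (σ (Fin.castAdd n' 1)) ∈ _
          rw [hσ1]
          exact hz j
      exact hS.perm_iff σ z (hS.front (μ := 1) (ν := 0) _ hpair (hS.zero _ _))
    · simp only [not_exists, not_and] at hdual
      obtain ⟨R, hq0, hqR, hqR', hA, -⟩ := hq D (fun i b hb => by
          obtain ⟨j, rfl, rfl⟩ := hD i b hb
          exact hE j) hbig
        (fun i i' b hb b' hb' hbb => by
          obtain ⟨j, -, rfl⟩ := hD i b hb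
          obtain ⟨j', -, rfl⟩ := hD i' b' hb'
          exact hdual j j' hbb)
      have h1 := le_card_of_integral R hq0 hqR hqR' a (Finset.univ.image a)
        (fun j => (hA _ _ (hDmem j)).1) (fun j _ => (hA _ _ (hDmem j)).2.2)
        (fun j hj => absurd (Finset.mem_image_of_mem a (Finset.mem_univ j)) hj) hint
      have h2 : (Finset.univ.filter fun j => a j ∉ Finset.univ.image a) = ∅ :=
        Finset.filter_eq_empty_iff.2 fun j _ => by
          rw [not_not]
          exact Finset.mem_image_of_mem a (Finset.mem_univ j)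
      rw [h2, Finset.card_empty] at h1
      omega

end Pool.Agent.Helper35.EP
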