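import Pool.Agent.Helper35.EP.Defs
import Pool.Agent.Helper40.CX.BC.FinalN
import Pool.Agent.Helper35.EP.Groups
import Pool.Agent.Helper35.EP.Ord

/-! Project elliptic powers. The main theorem. -/

set_option autoImplicit false

namespace Pool.Agent.Helper35.EP

open IntermediateField TensorProduct CategoryTheory Pool.Agent.Helper15.GD
open CX CX.VC CX.BC CX.Pool.Agent.Helper21.TO Pool.Agent.Helper35.KS Pool.Agent.Helper98.EP2
open Pool.Agent.Helper35.KN (Closed mulT)

theorem hasVoisin {s n : ℕ} (hn : s < n) {Ω K : Type} [Field Ω] [IsAlgClosed Ω] [Good Ω] [Field K]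
    [Algebra Ω K] (h : IsGenusOne s Ω K) : HasVoisin n Ω K := by
  obtain ⟨W, L, E, _, _, _, _, _, _, T, f, hN, hΔ, hW, hf⟩ := h
  intro Ω' _ _ _ _
  exact voisin_const_n (by omega) hΔ hW T f hf (by omega) Ω'

variable {Ω L : Type} [Field Ω] [Field L]

theorem tmap_tens {V V' : ModuleCat.{0} L} {n : ℕ} (ψ : Fin n → (V ⟶ V')) (z : Fin n → V) :
    (tmap ψ).hom (tens z) = tens fun i => (ψ i).hom (z i) :=
  PiTensorProduct.map_tprod _ _

theorem tmap_alt {V V' : ModuleCat.{0} L} {n : ℕ} (ψ : V ⟶ V') (z : Fin n → V) :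
    (tmap fun _ => ψ).hom (alt z) = alt fun i => ψ.hom (z i) := by
  unfold alt
  rw [map_sum]
  refine Finset.sum_congr rfl fun σ _ => ?_
  rw [map_smul, tmap_tens]
  rfl

theorem closed (T : PowCoh Ω L) (hT : T.IsTheory) (K : Ext Ω) :
    Closed (V := T.H K) (L := L) (fun n ν => T.sup K n ν) where
  zero n t := hT.products.zero K n t
  mul a b μ ν s t hs ht := hT.products.mul K a b μ ν s hs t ht
  perm n ν σ t ht := hT.products.perm K n ν σ t ht

theorem slot_mem (T : PowCoh Ω L) (hT : T.IsTheory) (K : Ext Ω) (φ : T.H K ⟶ T.H K)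
    (hφ : φ ∈ T.corr K K) (n ν : ℕ) (i : Fin n) (t : tpow (T.H K) n) (ht : t ∈ T.sup K n ν) :
    (slot i φ.hom) t ∈ T.sup K n ν := by
  have h1 := hT.stable K K n ν (Function.update (fun _ => CategoryStruct.id (T.H K)) i φ)
    (fun k => by
      by_cases hk : k = i
      · subst hk
        rw [Function.update_self]
        exact hφ
      · rw [Function.update_of_ne hk]
        exact hT.identity K) t ht
  have h2 : (fun k => (Function.update (fun _ => CategoryStruct.id (T.H K)) i φ k).hom) =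
      Function.update (fun _ => LinearMap.id) i φ.hom := by
    funext k
    by_cases hk : k = i
    · subst hk
      rw [Function.update_self, Function.update_self]
    · rw [Function.update_of_ne hk, Function.update_of_ne hk]
      rfl
  have h3 : slot i φ.hom = PiTensorProduct.map (R := L) (s := fun _ : Fin n => T.H K)
      (t := fun _ : Fin n => T.H K)
      (fun k => (Function.update (fun _ => CategoryStruct.id (T.H K)) i φ k).hom) := by
    rw [h2]
    rfl
  rw [h3]
  exact h1

variable [IsAlgClosed Ω] [Good Ω]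

theorem alt_mem (T : PowCoh Ω L) (hT : T.IsTheory) {K0 : Ext Ω} {s : ℕ}
    {A : Submodule L (T.H K0)} (hA : T.IsPart K0 s A) {n : ℕ} (hn : s < n) (z : Fin n → T.H K0)
    (hz : ∀ j, z j ∈ A) : alt z ∈ T.sup K0 n 1 := by
  obtain ⟨K, hK, ψ, hψ, rfl⟩ := hA
  choose y hy using hz
  have h1 := hT.blochSrinivas n K (hasVoisin hn hK) y
  have h2 := hT.stable K K0 n 1 (fun _ => ψ) (fun _ => hψ) _ h1
  rw [tmap_alt] at h2
  have h3 : (fun i => ψ.hom (y i)) = z := funext hy
  rwa [h3] at h2

theorem group_mem (T : PowCoh Ω L) (hT : T.IsTheory) {K0 : Ext Ω} {s : ℕ}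
    {A : Submodule L (T.H K0)} (hA : T.IsPart K0 s A) (φ : T.H K0 ⟶ T.H K0)
    (hφ : φ ∈ T.corr K0 K0) {n : ℕ} (hn : s < n) (a : Fin n → L) (ha : Function.Injective a)
    (z : Fin n → T.H K0) (hzA : ∀ j, z j ∈ A)
    (hz : ∀ j, z j ∈ Module.End.maxGenEigenspace φ.hom (a j)) :
    PiTensorProduct.tprod L z ∈ T.sup K0 n 1 :=
  alt_tprod_mem φ.hom (T.sup K0 n 1) (fun i t ht => slot_mem T hT K0 φ hφ n 1 i t ht) ha hz
    (alt_mem T hT hA hn z hzA)

theorem main [IsAlgClosed L] (T : PowCoh Ω L) (hT : T.IsTheory) (K0 : Ext Ω)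
    (hfin : FiniteDimensional L (T.H K0)) {r : ℕ} (s : Fin r → ℕ)
    (A : Fin r → Submodule L (T.H K0)) (hA : ∀ i, T.IsPart K0 (s i) (A i)) (n : ℕ) :
    (∀ i, s i < n → ∀ z : Fin n → T.H K0, (∀ j, z j ∈ A i) → alt z ∈ T.sup K0 n 1) ∧
    (⨆ i, A i = ⊤ → ∀ φ ∈ T.corr K0 K0, (∀ i, IsStable φ (A i)) →
      ∀ q : L, IsOrdinary φ q s A → T.IsTate φ q →
        ∀ (P : Submodule L (tpow (T.H K0) n)) (ν : ℕ), IsStable (tmap fun _ => φ) P →
          (∀ c : L, IsEigenvalue (tmap fun _ => φ) P c → IsIntegral ℤ (c / q ^ ν)) →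
            (ν = 1 ∨ r = 1 ∧ (∀ i, s i = 1) ∧ 2 * ν ≤ n) → P ≤ T.sup K0 n ν) := by
  classical
  have hS := closed T hT K0
  refine ⟨fun i hn z hz => alt_mem T hT (hA i) hn z hz,
    fun htop φ hφ hst q hq hTate P ν hP hint hν => ?_⟩
  have hfd : FiniteDimensional L (⨂[L] _ : Fin n, T.H K0) := inferInstance
  refine le_of_maxGen (W := ⨂[L] _ : Fin n, T.H K0) (PiTensorProduct.map fun _ => φ.hom) _ P
    hP fun c hc' => ?_
  rcases hν with rfl | ⟨rfl, hs, hn⟩
  · refine maxGen_le_parts φ.hom A hst htop (T.sup K0 n 1) c fun p a z hzA hz ha hac => ?_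
    refine tprod_mem_ordp hS φ.hom q s (fun i a => IsEigenvalue φ (A i) a) hq
      (fun a b x y hab hx hy => hTate a b x y hab hx hy 1 (by norm_num)) one_pos p a z
      hz ha (fun J hJ hinj => ?_) (hac ▸ hint c hc')
    obtain ⟨i, hi, hcard⟩ := hJ
    refine tprod_mem_groups hS 1 n z (fun _ => J)
      (fun k l hkl => absurd (Subsingleton.elim k l) hkl) fun k b e hb he heB => ?_
    refine group_mem T hT (hA i) φ hφ (hb ▸ hcard) (fun x => a (e x)) ?_ _ (fun x => ?_)
      fun x => hz (e x)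
    · intro x y hxy
      exact he (hinj (Finset.mem_coe.2 (heB x)) (Finset.mem_coe.2 (heB y)) hxy)
    · have h1 := hzA (e x)
      rw [hi _ (heB x)] at h1
      exact h1
  · have hA0 : A 0 = ⊤ := by
      rw [← htop]
      exact (iSup_unique (f := A)).symm
    have hev : ∀ a : L, Module.End.HasEigenvalue φ.hom a → IsEigenvalue φ (A 0) a := by
      intro a ha
      obtain ⟨x, hx⟩ := ha.exists_hasEigenvector
      exact ⟨x, hA0 ▸ Submodule.mem_top, hx.2, hx.apply_eq_smul⟩
    have hpair : ∀ (a b : L) (x y : T.H K0), a ≠ b →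
        x ∈ Module.End.maxGenEigenspace φ.hom a → y ∈ Module.End.maxGenEigenspace φ.hom b →
          PiTensorProduct.tprod L ![x, y] ∈ T.sup K0 2 1 := by
      intro a b x y hab hx hy
      refine group_mem T hT (hA 0) φ hφ (n := 2) (by rw [hs 0]; norm_num) ![a, b] ?_ _
        (fun j => hA0 ▸ Submodule.mem_top) fun j => ?_
      · intro i j hij
        fin_cases i <;> fin_cases j
        · rfl
        · exact absurd hij hab
        · exact absurd hij.symm hab
        · rfl
      · fin_cases j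
        · exact hx
        · exact hy
    refine KN.maxGen_le_of φ.hom (T.sup K0 n ν) c fun a z hz ha hac => ?_
    refine hS.tprod_mem_ord φ.hom q (fun a ha => ?_) hpair
      (fun a b x y hab hx hy => hTate a b x y hab hx hy 2 le_rfl) n ν hn a z hz ha
      (hac ▸ hint c hc')
    obtain ⟨R, h1, h2, h3, h4, h5⟩ := hq (fun _ => {a})
      (fun i b hb => by
        rw [Finset.mem_singleton.1 hb, Subsingleton.elim i 0]
        exact hev a ha)
      (fun i => by
        rw [hs i, Finset.card_singleton])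
      (fun _ _ b hb b' hb' hbb => absurd ((Finset.mem_singleton.1 hb).trans
        (Finset.mem_singleton.1 hb').symm) hbb)
    obtain ⟨h6, h7, h8⟩ := h4 0 a (Finset.mem_singleton_self a)
    refine ⟨R, h6, h7, h8, h1, h2, h3, fun b hb => ?_⟩
    rcases h5 (fun i => by rw [hs i, Finset.card_singleton]) 0 b (hev b hb) with h | ⟨b', h, h'⟩ | h
    · exact Or.inl (Finset.mem_singleton.1 h)
    · rw [Finset.mem_singleton.1 h] at h'
      exact Or.inr (Or.inl h')
    · exact Or.inr (Or.inr h)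

end Pool.Agent.Helper35.EP
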