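import Pool.Agent.Helper35.KN.Ord

/-! Project elliptic powers. Generalised eigenspaces of tensor powers, with stable parts. -/

set_option autoImplicit false

namespace Pool.Agent.Helper35.EP

open TensorProduct Pool.Agent.Helper35.KS Pool.Agent.Helper35.KN

variable {L V : Type*} [Field L] [AddCommGroup V] [Module L V]

theorem exists_eigenvector_of_gen (F : Module.End L V) (A : Submodule L V)
    (hA : ∀ x ∈ A, F x ∈ A) {a : L} {x : V} (hx : x ∈ F.maxGenEigenspace a) (hxA : x ∈ A)
    (hx0 : x ≠ 0) : ∃ y ∈ A, y ≠ 0 ∧ F y = a • y := by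
  obtain ⟨k, hk⟩ := (Module.End.mem_maxGenEigenspace F a x).1 hx
  have key : ∀ (m : ℕ) (u : V), u ∈ A → u ≠ 0 → ((F - a • (1 : Module.End L V)) ^ m) u = 0 →
      ∃ y ∈ A, y ≠ 0 ∧ F y = a • y := by
    intro m
    induction m with
    | zero => intro u _ h0 hu; exact absurd (by simpa using hu) h0
    | succ m ih =>
      intro u huA h0 hu
      rw [pow_succ, Module.End.mul_apply] at hu
      by_cases h1 : (F - a • (1 : Module.End L V)) u = 0
      · refine ⟨u, huA, h0, ?_⟩
        rw [LinearMap.sub_apply, LinearMap.smul_apply, Module.End.one_apply, sub_eq_zero] at h1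
        exact h1
      · refine ih _ ?_ h1 hu
        rw [LinearMap.sub_apply, LinearMap.smul_apply, Module.End.one_apply]
        exact A.sub_mem (hA u huA) (A.smul_mem a huA)
  exact key k x hxA hx0 hk

/-- A stable subspace is the sum of its intersections with the generalised eigenspaces. -/
theorem le_iSup_inf_maxGen [IsAlgClosed L] [FiniteDimensional L V] (F : Module.End L V)
    (A : Submodule L V) (hA : ∀ x ∈ A, F x ∈ A) : A ≤ ⨆ a : L, A ⊓ F.maxGenEigenspace a := by
  let G : Module.End L A := F.restrict hA
  intro x hx
  have h1 : (⟨x, hx⟩ : A) ∈ ⨆ c : L, G.maxGenEigenspace c := by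
    rw [Module.End.iSup_maxGenEigenspace_eq_top]
    exact Submodule.mem_top
  have key : ∀ y ∈ ⨆ c : L, G.maxGenEigenspace c, (y : V) ∈ ⨆ a : L, A ⊓ F.maxGenEigenspace a := by
    intro y hy
    induction hy using Submodule.iSup_induction' with
    | zero => exact Submodule.zero_mem _
    | add x y _ _ hx hy => exact Submodule.add_mem _ hx hy
    | mem c y hy =>
      refine Submodule.mem_iSup_of_mem c ⟨y.2, ?_⟩
      obtain ⟨k, hk⟩ := (Module.End.mem_maxGenEigenspace G c y).1 hy
      refine (Module.End.mem_maxGenEigenspace F c _).2 ⟨k, ?_⟩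
      have h4 : ∀ (m : ℕ) (u : A), (((G - c • (1 : Module.End L A)) ^ m) u : V) =
          ((F - c • (1 : Module.End L V)) ^ m) (u : V) := by
        intro m
        induction m with
        | zero => intro u; rfl
        | succ m ih =>
          intro u
          rw [pow_succ, Module.End.mul_apply, ih, pow_succ, Module.End.mul_apply]
          rfl
      rw [← h4, hk]
      rfl
  exact key _ h1

/-- A stable subspace is the sum of its generalised eigenspaces. -/
theorem le_of_maxGen {W : Type*} [AddCommGroup W] [Module L W] [IsAlgClosed L]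
    [FiniteDimensional L W] (G : Module.End L W) (S P : Submodule L W) (hP : ∀ t ∈ P, G t ∈ P)
    (h : ∀ c : L, (∃ t ∈ P, t ≠ 0 ∧ G t = c • t) → G.maxGenEigenspace c ≤ S) : P ≤ S := by
  let GP : Module.End L P := G.restrict hP
  intro t ht
  have h1 : (⟨t, ht⟩ : P) ∈ ⨆ c : L, GP.maxGenEigenspace c := by
    rw [Module.End.iSup_maxGenEigenspace_eq_top]
    exact Submodule.mem_top
  have key : ∀ x ∈ ⨆ c : L, GP.maxGenEigenspace c, (x : W) ∈ S := by
    intro x hx
    induction hx using Submodule.iSup_induction' with
    | zero => exact S.zero_mem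
    | add x y _ _ hx hy => exact S.add_mem hx hy
    | mem c x hx =>
      by_cases hx0 : x = 0
      · rw [hx0]
        exact S.zero_mem
      have h2 : GP.HasEigenvalue c := by
        rw [Module.End.hasEigenvalue_iff]
        intro h0
        obtain ⟨k, hk⟩ := (Module.End.mem_maxGenEigenspace GP c x).1 hx
        have h2 : ∀ (m : ℕ) (u : P), ((GP - c • (1 : Module.End L P)) ^ m) u = 0 → u = 0 := by
          intro m
          induction m with
          | zero => intro u hu; simpa using hu
          | succ m ih =>
            intro u hu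
            rw [pow_succ, Module.End.mul_apply] at hu
            have h3 := ih _ hu
            have h4 : u ∈ GP.eigenspace c := by
              rw [Module.End.mem_eigenspace_iff]
              exact sub_eq_zero.1 h3
            rw [h0] at h4
            exact h4
        exact hx0 (h2 k x hk)
      obtain ⟨v, hv⟩ := h2.exists_hasEigenvector
      have h3 : G.maxGenEigenspace c ≤ S := by
        refine h c ⟨v, v.2, ?_, ?_⟩
        · intro h0
          exact hv.2 (Subtype.ext h0)
        · have := hv.apply_eq_smul
          exact congrArg Subtype.val this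
      refine h3 ?_
      obtain ⟨k, hk⟩ := (Module.End.mem_maxGenEigenspace GP c x).1 hx
      rw [Module.End.mem_maxGenEigenspace]
      refine ⟨k, ?_⟩
      have h4 : ∀ (m : ℕ) (u : P), (((GP - c • (1 : Module.End L P)) ^ m) u : W) =
          ((G - c • (1 : Module.End L W)) ^ m) (u : W) := by
        intro m
        induction m with
        | zero => intro u; rfl
        | succ m ih =>
          intro u
          rw [pow_succ, Module.End.mul_apply, ih, pow_succ, Module.End.mul_apply]
          rfl
      rw [← h4, hk]
      rfl
  exact key _ h1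

/-- The generalised eigenspaces of the tensor power are spanned by products of generalised
eigenvectors which belong to the parts `A i`. -/
theorem maxGen_le_parts [IsAlgClosed L] [FiniteDimensional L V] {n r : ℕ} (F : Module.End L V)
    (A : Fin r → Submodule L V) (hA : ∀ i, ∀ x ∈ A i, F x ∈ A i) (htop : ⨆ i, A i = ⊤)
    (S : Submodule L (⨂[L] _ : Fin n, V)) (c : L)
    (hS : ∀ (p : Fin n → Fin r) (a : Fin n → L) (z : Fin n → V), (∀ j, z j ∈ A (p j)) →
      (∀ j, z j ∈ F.maxGenEigenspace (a j)) →
      (∀ j, ∃ y ∈ A (p j), y ≠ 0 ∧ F y = a j • y) → ∏ j, a j = c →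
        PiTensorProduct.tprod L z ∈ S) :
    Module.End.maxGenEigenspace (PiTensorProduct.map fun _ : Fin n => F) c ≤ S := by
  classical
  set G : Module.End L (⨂[L] _ : Fin n, V) := PiTensorProduct.map fun _ : Fin n => F with hG
  let U : Submodule L (⨂[L] _ : Fin n, V) := ⨆ (d : L) (_ : d ≠ c), G.maxGenEigenspace d
  have hpure : ∀ (s : Finset (Fin n)) (z : Fin n → V),
      (∀ k, k ∉ s → ∃ i a, z k ∈ A i ∧ z k ∈ F.maxGenEigenspace a) →
      PiTensorProduct.tprod L z ∈ (S ⊓ G.maxGenEigenspace c) ⊔ U := by
    intro s
    induction s using Finset.induction_on with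
    | empty =>
      intro z hz
      choose p a hp ha using fun k => hz k (Finset.notMem_empty k)
      have h1 := tprod_mem_maxGen F ha
      by_cases hd : ∏ k, a k = c
      · refine Submodule.mem_sup_left ⟨?_, hd ▸ h1⟩
        by_cases hz0 : ∃ i, z i = 0
        · obtain ⟨i, hi⟩ := hz0
          rw [show PiTensorProduct.tprod L z = 0 from MultilinearMap.map_coord_zero _ i hi]
          exact Submodule.zero_mem _
        · simp only [not_exists] at hz0
          exact hS p a z hp ha
            (fun j => exists_eigenvector_of_gen F _ (hA _) (ha j) (hp j) (hz0 j)) hd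
      · exact Submodule.mem_sup_right (Submodule.mem_iSup_of_mem (∏ k, a k)
          (Submodule.mem_iSup_of_mem hd h1))
    | insert i s hi ih =>
      intro z hz
      have hzi : z i ∈ ⨆ q : Fin r × L, A q.1 ⊓ F.maxGenEigenspace q.2 := by
        have h1 : z i ∈ ⨆ i, A i := by
          rw [htop]
          exact Submodule.mem_top
        refine (iSup_le fun i => ?_ : ⨆ i, A i ≤ _) h1
        refine (le_iSup_inf_maxGen F (A i) (hA i)).trans (iSup_le fun a => ?_)
        exact le_iSup (fun q : Fin r × L => A q.1 ⊓ F.maxGenEigenspace q.2) (i, a)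
      have key : ∀ x ∈ ⨆ q : Fin r × L, A q.1 ⊓ F.maxGenEigenspace q.2,
          PiTensorProduct.tprod L (Function.update z i x) ∈
            (S ⊓ G.maxGenEigenspace c) ⊔ U := by
        intro x hx
        induction hx using Submodule.iSup_induction' with
        | zero =>
          rw [MultilinearMap.map_update_zero]
          exact Submodule.zero_mem _
        | add x x' _ _ hx hx' =>
          rw [MultilinearMap.map_update_add]
          exact Submodule.add_mem _ hx hx'
        | mem q x hx =>
          refine ih _ fun k hk => ?_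
          by_cases hki : k = i
          · rw [hki, Function.update_self]
            exact ⟨q.1, q.2, hx.1, hx.2⟩
          · rw [Function.update_of_ne hki]
            exact hz k fun h => (Finset.mem_insert.1 h).elim hki hk
      have h2 := key _ hzi
      rwa [Function.update_eq_self] at h2
  have htop' : ∀ t : ⨂[L] _ : Fin n, V, t ∈ (S ⊓ G.maxGenEigenspace c) ⊔ U := by
    intro t
    have h1 : t ∈ Submodule.span L (Set.range (PiTensorProduct.tprod L (s := fun _ : Fin n => V))) := by
      rw [PiTensorProduct.span_tprod_eq_top]
      exact Submodule.mem_top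
    refine Submodule.span_le.2 ?_ h1
    rintro _ ⟨z, rfl⟩
    exact hpure Finset.univ z fun k hk => absurd (Finset.mem_univ k) hk
  intro t ht
  obtain ⟨s, hs, u, hu, hsu⟩ := Submodule.mem_sup.1 (htop' t)
  have h1 : u ∈ G.maxGenEigenspace c := by
    have h2 : u = t - s := by rw [← hsu]; abel
    rw [h2]
    exact Submodule.sub_mem _ ht hs.2
  have h2 := Module.End.independent_maxGenEigenspace G c
  have h3 : u = 0 := Submodule.disjoint_def.1 h2 u h1 hu
  rw [← hsu, h3, add_zero]
  exact hs.1

end Pool.Agent.Helper35.EP
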